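import Pool.Agent.NPC.Defs
import Pool.Agent.Helper6K1.BN.Defs

/-!
# Languages that are selective from lists by a randomised algorithm
-/

set_option autoImplicit false

namespace Pool.Agent.Helper49.LSR

open Pool.Agent.NPC
open Pool.Agent.Helper6K1.BN (prob)

/-- The string at the position `i` of the list `xs` is the only one that is not in `L`. -/
def OddOut (L : Set (List Bool)) (xs : List (List Bool)) (i : ℕ) : Prop :=
  i < xs.length ∧ ∀ j < xs.length, (xs.getD j [] ∈ L ↔ j ≠ i)

/-- A language `L` is selective from lists by a randomised algorithm if for polynomials `P`, `Q`,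
`ρ` a function `g`, computable in polynomial time, gets a list `xs` of `k = P(n) + 1` strings of
length at most `n`, exactly one of which is not in `L`, and random bits `r` (there are `ρ(l)` of
them, where `l` is the length of the code of `xs`), and with probability at least
`1 - 1/k + 1/(Q(n)+1)` it gives the position of one of the strings that are in `L`. (A random
position succeeds with probability `1 - 1/k`.) -/
def RSelective (L : Set (List Bool)) : Prop :=
  ∃ (P Q ρ : Polynomial ℕ) (g : List Bool → ℕ), PolyTime (fun y => bits (g y)) ∧
    ∀ (n : ℕ) (xs : List (List Bool)) (i : ℕ), (∀ x ∈ xs, x.length ≤ n) →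
      xs.length = P.eval n + 1 → OddOut L xs i →
      1 - 1 / (xs.length : ℝ) + 1 / (((Q.eval n : ℕ) : ℝ) + 1) ≤
        prob (ρ.eval (bits xs).length) fun r =>
          g (pairBits (bits xs) r) < xs.length ∧ g (pairBits (bits xs) r) ≠ i

end Pool.Agent.Helper49.LSR
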