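import Pool.Agent.Helper70K1.NB.Samp
import Pool.Agent.Helper49.LSR.Defs

/-!
# The most frequent output of a sample
-/

set_option autoImplicit false

namespace Pool.Agent.Helper49.LSR

open Finset BigOperators Pool.Agent.NPC
open Pool.Agent.Helper6K1.BN (prob prob_eq BLL mem_BLL BLL_nonempty BL_nonempty expect_BL_take)
open Pool.Agent.H579R2.Spt (BL mem_BL)
open Pool.Agent.Helper70K1.NB (moment)

/-- The number of occurrences. -/
def cnt (l : List ℕ) (j : ℕ) : ℕ := (l.filter fun a => decide (a = j)).length

/-- The most frequent number below `M`. -/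
def best (M : ℕ) (l : List ℕ) : ℕ :=
  (((List.range M).filter fun i => (List.range M).all fun j =>
    decide (cnt l j ≤ cnt l i)).head?).getD 0

theorem best_spec {M : ℕ} (hM : 0 < M) (l : List ℕ) :
    best M l < M ∧ ∀ j < M, cnt l j ≤ cnt l (best M l) := by
  obtain ⟨i, hi, hmax⟩ := Finset.exists_max_image (Finset.range M) (cnt l)
    ⟨0, Finset.mem_range.2 hM⟩
  rw [Finset.mem_range] at hi
  set L := (List.range M).filter fun i => (List.range M).all fun j =>
    decide (cnt l j ≤ cnt l i) with hL
  have h1 : i ∈ L := by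
    rw [hL, List.mem_filter, List.mem_range, List.all_eq_true]
    refine ⟨hi, fun j hj => ?_⟩
    rw [List.mem_range] at hj
    simpa using hmax j (Finset.mem_range.2 hj)
  have h2 : best M l ∈ L := Pool.Agent.Helper70K1.PP.headD_mem _ h1
  rw [hL, List.mem_filter, List.mem_range, List.all_eq_true] at h2
  refine ⟨h2.1, fun j hj => ?_⟩
  simpa using h2.2 j (List.mem_range.2 hj)

theorem length_eq (M : ℕ) (l : List ℕ) :
    l.length = (l.filter fun a => !decide (a < M)).length + ∑ j ∈ range M, cnt l j := by
  induction l with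
  | nil => simp [cnt]
  | cons a l ih =>
    have h1 : ∀ j, cnt (a :: l) j = cnt l j + if a = j then 1 else 0 := by
      intro j
      unfold cnt
      rw [List.filter_cons]
      by_cases h : a = j
      · simp [h]
      · simp [h]
    rw [List.length_cons, ih, Finset.sum_congr rfl fun j _ => h1 j, Finset.sum_add_distrib,
      Finset.sum_ite_eq, List.filter_cons]
    by_cases h : a < M
    · simp [h]
      omega
    · simp [h]
      omega

/-- The number of the failures. -/
def fails (M i : ℕ) (l : List ℕ) : ℕ := (l.filter fun a => !(decide (a < M) && !decide (a = i))).length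

theorem fails_eq {M i : ℕ} (hi : i < M) (l : List ℕ) :
    fails M i l = (l.filter fun a => !decide (a < M)).length + cnt l i := by
  unfold fails cnt
  induction l with
  | nil => simp
  | cons a l ih =>
    rw [List.filter_cons, List.filter_cons, List.filter_cons]
    by_cases h : a < M
    · by_cases h2 : a = i
      · subst h2
        simp only [h, decide_true, Bool.not_true, Bool.and_false, Bool.not_false, if_true,
          List.length_cons, ih, Bool.false_eq_true, if_false]
        omega
      · simp only [h, h2, decide_true, decide_false, Bool.not_true, Bool.not_false, Bool.and_true,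
          Bool.false_eq_true, if_false, ih]
    · have h2 : a ≠ i := by omega
      simp only [h, h2, decide_false, Bool.not_false, Bool.false_and, if_true, List.length_cons,
        ih, Bool.false_eq_true, if_false]
      omega

/-- If the number of failures is small then the most frequent number is right. -/
theorem best_ne {M i : ℕ} (hi : i < M) {l : List ℕ} (h : M * fails M i l < l.length) :
    best M l ≠ i := by
  intro hb
  obtain ⟨_, h2⟩ := best_spec (show 0 < M by omega) l
  rw [hb] at h2
  have h3 := length_eq M l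
  have h4 := fails_eq hi l
  have h5 : ∑ j ∈ range M, cnt l j ≤ M * cnt l i := by
    refine (Finset.sum_le_card_nsmul _ _ (cnt l i) fun j hj => h2 j (Finset.mem_range.1 hj)).trans ?_
    rw [Finset.card_range, smul_eq_mul]
  have h6 : (l.filter fun a => !decide (a < M)).length ≤
      M * (l.filter fun a => !decide (a < M)).length :=
    Nat.le_mul_of_pos_left _ (by omega)
  rw [h4] at h
  rw [Nat.mul_add] at h
  omega

/-- The number of failures in `S` independent experiments is not much larger than expected. -/
theorem few_fail {R : ℕ} (c : List Bool → ℕ) {M q i : ℕ} (hM : 0 < M)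
    (hc : 1 - 1 / (M : ℝ) + 1 / ((q : ℝ) + 1) ≤ prob R fun b => c b < M ∧ c b ≠ i) (S : ℕ)
    (hS : 0 < S) :
    𝔼 H ∈ BLL R S, (if M * fails M i (H.map c) < S then (0 : ℝ) else 1) ≤
      ((q : ℝ) + 1) ^ 2 / S := by
  set μ := 𝔼 u ∈ BL R, (if (c u < M ∧ c u ≠ i) then (0 : ℝ) else 1) with hμ
  have hc' : μ ≤ 1 / (M : ℝ) - 1 / ((q : ℝ) + 1) := by
    have h1 : 𝔼 u ∈ BL R, (if (c u < M ∧ c u ≠ i) then (1 : ℝ) else 0) = 1 - μ := by
      rw [hμ]
      have h2 : ∀ u ∈ BL R, (if (c u < M ∧ c u ≠ i) then (1 : ℝ) else 0) =
          1 - (if (c u < M ∧ c u ≠ i) then (0 : ℝ) else 1) := by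
        intro u _
        split_ifs <;> norm_num
      rw [expect_congr rfl h2, expect_sub_distrib, expect_const (BL_nonempty R)]
    have h3 : 1 - 1 / (M : ℝ) + 1 / ((q : ℝ) + 1) ≤
        𝔼 u ∈ BL R, (if (c u < M ∧ c u ≠ i) then (1 : ℝ) else 0) := by
      refine hc.trans (le_of_eq ?_)
      rw [prob_eq]
      refine expect_congr rfl fun u _ => ?_
      by_cases h : c u < M ∧ c u ≠ i
      · rw [if_pos h, if_pos h]
      · rw [if_neg h, if_neg h]
    rw [h1] at h3
    linarith
  have hμ0 : 0 ≤ μ := by
    rw [hμ]
    exact expect_nonneg fun u _ => by split_ifs <;> norm_num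
  have hμ1 : μ ≤ 1 := by
    rw [hμ]
    exact expect_le (BL_nonempty R) fun r _ => by split_ifs <;> norm_num
  set f : List Bool → ℝ := fun u => (if (c u < M ∧ c u ≠ i) then (0 : ℝ) else 1) - μ with hf
  have hf0 : 𝔼 u ∈ BL R, f u = 0 := by
    rw [hf, expect_sub_distrib, expect_const (BL_nonempty R), hμ]
    ring
  have hf1 : ∀ u, f u ^ 2 ≤ 1 := by
    intro u
    rw [hf]
    simp only
    split_ifs <;> nlinarith
  have hm := moment f hf0 hf1 S
  have hSR : (0 : ℝ) < S := by exact_mod_cast hS
  have hp : (0 : ℝ) < (q : ℝ) + 1 := by positivity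
  have hMR : (0 : ℝ) < M := by exact_mod_cast hM
  have hsum : ∀ H : List (List Bool), (H.map f).sum =
      (fails M i (H.map c) : ℝ) - H.length * μ := by
    intro H
    induction H with
    | nil => simp [fails]
    | cons b H ih =>
      rw [List.map_cons, List.sum_cons, ih, hf]
      simp only
      unfold fails
      rw [List.map_cons, List.filter_cons]
      by_cases hb : c b < M ∧ c b ≠ i
      · have h1 : (!(decide (c b < M) && !decide (c b = i))) = false := by simp [hb.1, hb.2]
        rw [h1, if_pos hb]
        simp only [Bool.false_eq_true, if_false, List.length_cons]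
        push_cast
        ring
      · have h1 : (!(decide (c b < M) && !decide (c b = i))) = true := by
          rw [Bool.not_eq_true', ← Bool.not_eq_true]
          intro h2
          rw [Bool.and_eq_true, decide_eq_true_eq, Bool.not_eq_true', decide_eq_false_iff_not] at h2
          exact hb h2
        rw [h1, if_neg hb]
        simp only [if_true, List.length_cons]
        push_cast
        ring
  have key : ∀ H ∈ BLL R S, (if M * fails M i (H.map c) < S then (0 : ℝ) else 1) ≤
      ((q : ℝ) + 1) ^ 2 / S ^ 2 * ((H.map f).sum) ^ 2 := by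
    intro H hH
    split_ifs with h
    · positivity
    · rw [not_lt] at h
      have h1 : (S : ℝ) ≤ M * (fails M i (H.map c) : ℝ) := by exact_mod_cast h
      have h2 := hsum H
      rw [(mem_BLL.1 hH).1] at h2
      set X := (fails M i (H.map c) : ℝ) with hX
      have h3 : (S : ℝ) / ((q : ℝ) + 1) ≤ (H.map f).sum := by
        rw [h2]
        have h4 : (S : ℝ) / M ≤ X := by
          rw [div_le_iff₀ hMR]
          linarith
        have h5 : (S : ℝ) * μ ≤ S * (1 / (M : ℝ) - 1 / ((q : ℝ) + 1)) :=
          mul_le_mul_of_nonneg_left hc' hSR.le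
        have h6 : (S : ℝ) * (1 / (M : ℝ) - 1 / ((q : ℝ) + 1)) = S / M - S / ((q : ℝ) + 1) := by ring
        linarith
      have h5 : ((S : ℝ) / ((q : ℝ) + 1)) ^ 2 ≤ ((H.map f).sum) ^ 2 :=
        pow_le_pow_left₀ (by positivity) h3 2
      have h6 : ((q : ℝ) + 1) ^ 2 / S ^ 2 * ((S : ℝ) / ((q : ℝ) + 1)) ^ 2 = 1 := by
        field_simp
      calc (1 : ℝ) = ((q : ℝ) + 1) ^ 2 / S ^ 2 * ((S : ℝ) / ((q : ℝ) + 1)) ^ 2 := h6.symm
        _ ≤ _ := by gcongr
  refine (expect_le_expect key).trans ?_
  rw [← mul_expect]
  calc ((q : ℝ) + 1) ^ 2 / S ^ 2 * 𝔼 H ∈ BLL R S, ((H.map f).sum) ^ 2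
      ≤ ((q : ℝ) + 1) ^ 2 / S ^ 2 * S := by gcongr
    _ = ((q : ℝ) + 1) ^ 2 / S := by
      field_simp

/-! ### The outputs of a randomised function -/

/-- The outputs for the blocks of random bits. -/
def outs (ρ : Polynomial ℕ) (g : List Bool → ℕ) (H xs : List (List Bool)) : List ℕ :=
  H.map fun b => g (pairBits (bits xs) (b.take (ρ.eval (bits xs).length)))

/-- The sample of random blocks is good for a list of strings. -/
def GoodS (ρ : Polynomial ℕ) (g : List Bool → ℕ) (i S : ℕ) (H xs : List (List Bool)) : Prop :=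
  i < xs.length → xs.length * fails xs.length i (outs ρ g H xs) < S

instance (ρ : Polynomial ℕ) (g : List Bool → ℕ) (i S : ℕ) (H xs : List (List Bool)) :
    Decidable (GoodS ρ g i S H xs) := by
  unfold GoodS
  infer_instance

theorem goodS_spec {ρ : Polynomial ℕ} {g : List Bool → ℕ} {i S : ℕ} {H xs : List (List Bool)}
    (hH : H.length = S) (hxs : 0 < xs.length) (h : GoodS ρ g i S H xs) :
    best xs.length (outs ρ g H xs) < xs.length ∧ best xs.length (outs ρ g H xs) ≠ i := by
  have h1 := (best_spec hxs (outs ρ g H xs)).1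
  refine ⟨h1, ?_⟩
  by_cases hi : i < xs.length
  · refine best_ne hi ?_
    have h2 : (outs ρ g H xs).length = S := by
      unfold outs
      rw [List.length_map, hH]
    rw [h2]
    exact h hi
  · omega

/-- A random sample is good. -/
theorem goodS_prob {ρ : Polynomial ℕ} {g : List Bool → ℕ} {q S R i : ℕ} {xs : List (List Bool)}
    (hS : 0 < S) (hR : ρ.eval (bits xs).length ≤ R)
    (h : i < xs.length → 1 - 1 / (xs.length : ℝ) + 1 / ((q : ℝ) + 1) ≤
      prob (ρ.eval (bits xs).length) fun r =>
        g (pairBits (bits xs) r) < xs.length ∧ g (pairBits (bits xs) r) ≠ i) :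
    𝔼 H ∈ BLL R S, (if GoodS ρ g i S H xs then (0 : ℝ) else 1) ≤ ((q : ℝ) + 1) ^ 2 / S := by
  by_cases hi : i < xs.length
  · have h' := h hi
    set c : List Bool → ℕ := fun b => g (pairBits (bits xs) (b.take (ρ.eval (bits xs).length)))
      with hc
    have hp : prob (ρ.eval (bits xs).length) (fun r =>
        g (pairBits (bits xs) r) < xs.length ∧ g (pairBits (bits xs) r) ≠ i) =
        prob R fun b => c b < xs.length ∧ c b ≠ i := by
      rw [prob_eq, prob_eq]
      obtain ⟨s, hs⟩ := Nat.exists_eq_add_of_le hR
      rw [hs, ← expect_BL_take (ρ.eval (bits xs).length) s]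
    rw [hp] at h'
    refine le_trans (le_of_eq (expect_congr rfl fun H _ => ?_)) (few_fail c (by omega) h' S hS)
    have e : GoodS ρ g i S H xs ↔ xs.length * fails xs.length i (H.map c) < S := by
      unfold GoodS
      exact ⟨fun h1 => h1 hi, fun h1 _ => h1⟩
    by_cases h1 : GoodS ρ g i S H xs
    · rw [if_pos h1, if_pos (e.1 h1)]
    · rw [if_neg h1, if_neg fun h2 => h1 (e.2 h2)]
  · have e : ∀ H ∈ BLL R S, (if GoodS ρ g i S H xs then (0 : ℝ) else 1) = 0 := by
      intro H _
      rw [if_pos]
      intro h1
      exact absurd h1 hi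
    rw [expect_congr rfl e, expect_const (BLL_nonempty R S)]
    positivity

end Pool.Agent.Helper49.LSR
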