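import Pool.Agent.Helper49.LSR.Lang
import Pool.Agent.Helper49.LSR.Samp
import Pool.Agent.Helper45.LS.Main

/-!
# The search for a unique certificate with a randomised selector
-/

set_option autoImplicit false

namespace Pool.Agent.Helper49.LSR

open Finset BigOperators Pool.Agent.NPC
open Pool.Agent.Helper6K1.BN (prob prob_eq BLL mem_BLL BLL_nonempty expect_BLL_zero
  BL_nonempty expect_rows mm Unq Pred uncd uncd_poly foldr_cd expect_BL_zero)
open Pool.Agent.H579R2.Spt (BL mem_BL ip cd ip_poly ver ver_poly ver_iff rowsL rowsL_poly take_poly')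
open Pool.Agent.Helper70K1.SP hiding PN
open Pool.Agent.Helper70K1.PP (PN PE PN_eval PE_eval PE_pos findF findF_spec rrP rrP_spec cc RB
  poly_findF)
open Pool.Agent.Helper70K1.NB (dq dq_bits poly_dq poly_pairBits' pm pm_eval qy qz QN)
open Pool.Agent.Helper45.LS (listS poly_listS nnS nnS_pos nnS_eq keyN)

/-! ### The selector as a fixed function -/

/-- The position for the code of a list of queries. -/
def gS (ρ : Polynomial ℕ) (g : List Bool → ℕ) (z : List Bool) : ℕ :=
  (unbits (List (List Bool)) z).elim 0 fun zs =>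
    best zs.length (outs ρ g (dq (zs.head?.getD [])).2 (zs.map fun s => (dq s).1))

theorem gS_bits (ρ : Polynomial ℕ) (g : List Bool → ℕ) {M : ℕ} (hM : 0 < M)
    (y : ℕ → List Bool) (H : List (List Bool)) :
    gS ρ g (bits ((List.range M).map fun i => bits ((y i, H) : List Bool × List (List Bool)))) =
      best ((List.range M).map y).length (outs ρ g H ((List.range M).map y)) := by
  unfold gS
  rw [unbits_bits]
  simp only [Option.elim]
  obtain ⟨k, rfl⟩ : ∃ k, M = k + 1 := ⟨M - 1, by omega⟩
  have h1 : ((List.range (k + 1)).map fun i =>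
      bits ((y i, H) : List Bool × List (List Bool))).head?.getD [] =
      bits ((y 0, H) : List Bool × List (List Bool)) := by
    rw [List.range_succ_eq_map]
    simp
  rw [h1, dq_bits, List.map_map, List.length_map, List.length_map]
  congr 2
  refine List.map_congr_left fun i _ => ?_
  simp only [Function.comp, dq_bits]

variable {α : Type} [TEnc α]

theorem poly_gT {g : List Bool → ℕ} (hg : PolyTime fun y => bits (g y)) : NPC.Poly g := by
  have h1 : NPC.Poly (fun x => bits (g x)) := PIso.poly_iff.2 hg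
  have h2 : NPC.Poly (fun x => unbits ℕ (bits (g x))) := poly_unbits.comp h1
  exact (NPC.Poly.optGetD h2 (NPC.Poly.const 0)).congr fun x => by
    simp only [unbits_bits, Option.getD_some]

theorem poly_cnt {l : α → List ℕ} {j : α → ℕ} (hl : NPC.Poly l) (hj : NPC.Poly j) :
    NPC.Poly (fun a => cnt (l a) (j a)) := by
  unfold cnt
  refine NPC.Poly.length (NPC.Poly.filter (p := fun a b => decide (b = j a)) hl ?_)
  exact NPC.Poly.decide_eq (NPC.Poly.snd NPC.Poly.id) (hj.comp (NPC.Poly.fst NPC.Poly.id))

theorem poly_best {M : α → ℕ} {l : α → List ℕ} (hM : UPoly M) (hl : NPC.Poly l) :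
    NPC.Poly (fun a => best (M a) (l a)) := by
  unfold best
  refine NPC.Poly.optGetD (NPC.Poly.head? (NPC.Poly.filter (p := fun a i =>
    (List.range (M a)).all fun j => decide (cnt (l a) j ≤ cnt (l a) i)) hM.range ?_))
    (NPC.Poly.const 0)
  refine NPC.Poly.all (l := fun x : α × ℕ => List.range (M x.1))
    (p := fun x j => decide (cnt (l x.1) j ≤ cnt (l x.1) x.2))
    ((hM.range).comp (NPC.Poly.fst NPC.Poly.id)) ?_
  have hl' : NPC.Poly (fun x : (α × ℕ) × ℕ => l x.1.1) :=
    hl.comp (NPC.Poly.fst (NPC.Poly.fst NPC.Poly.id))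
  exact NPC.Poly.decide_le (poly_cnt hl' (NPC.Poly.snd NPC.Poly.id))
    (poly_cnt hl' (NPC.Poly.snd (NPC.Poly.fst NPC.Poly.id)))

theorem poly_outs {ρ : Polynomial ℕ} {g : List Bool → ℕ} (hg : NPC.Poly g)
    {H xs : α → List (List Bool)} (hH : NPC.Poly H) (hxs : NPC.Poly xs) :
    NPC.Poly (fun a => outs ρ g (H a) (xs a)) := by
  unfold outs
  have hb : NPC.Poly (fun a => bits (xs a)) := poly_bits hxs
  have hρ : NPC.Poly (fun a => ρ.eval (bits (xs a)).length) := ((UPoly.length hb).eval ρ).toPoly
  refine NPC.Poly.map (F := fun a b => g (pairBits (bits (xs a))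
      (b.take (ρ.eval (bits (xs a)).length)))) hH ?_
  refine hg.comp (poly_pairBits' (hb.comp (NPC.Poly.fst NPC.Poly.id)) ?_)
  exact take_poly' (NPC.Poly.snd NPC.Poly.id) (hρ.comp (NPC.Poly.fst NPC.Poly.id))

theorem polyTime_gS {ρ : Polynomial ℕ} {g : List Bool → ℕ} (hg : NPC.Poly g) :
    PolyTime (fun z => bits (gS ρ g z)) := by
  refine PIso.poly_iff.1 (poly_bits ?_)
  unfold gS
  refine NPC.Poly.optElim (o := fun z => unbits (List (List Bool)) z) (g := fun _ => 0)
    (h := fun _ zs => best zs.length (outs ρ g (dq (zs.head?.getD [])).2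
      (zs.map fun s => (dq s).1))) poly_unbits (NPC.Poly.const _) ?_
  have h0 : NPC.Poly (fun x : List Bool × List (List Bool) => x.2) := NPC.Poly.snd NPC.Poly.id
  have h1 : NPC.Poly (fun x : List Bool × List (List Bool) => (dq (x.2.head?.getD [])).2) :=
    NPC.Poly.snd (poly_dq (NPC.Poly.head?_getD h0 _))
  have h2 : NPC.Poly (fun x : List Bool × List (List Bool) => x.2.map fun s => (dq s).1) :=
    NPC.Poly.map (F := fun _ s => (dq s).1) h0
      (NPC.Poly.fst (poly_dq (NPC.Poly.snd NPC.Poly.id)))
  exact poly_best (UPoly.length h0) (poly_outs hg h1 h2)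

/-! ### Parameters -/

/-- The number of queries in a list. -/
noncomputable def QM (P : Polynomial ℕ) : Polynomial ℕ := P.comp PN + Polynomial.C 1

theorem QM_eval (P : Polynomial ℕ) (m : ℕ) : (QM P).eval m = P.eval (PN.eval m) + 1 := by
  simp [QM, Polynomial.eval_comp]

theorem QM_pos (P : Polynomial ℕ) (m : ℕ) : 0 < (QM P).eval m := by
  rw [QM_eval]; omega

theorem QM_le (P : Polynomial ℕ) (m : ℕ) : (QM P).eval m ≤ (PE P).eval m := by
  rw [QM_eval, PE_eval]; omega

/-- The number of blocks of random bits. -/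
noncomputable def QS (P Q : Polynomial ℕ) : Polynomial ℕ :=
  Polynomial.C 2 * ((Polynomial.X + Polynomial.C 1) *
    (Polynomial.C 4 * PE P ^ 2 + Polynomial.C 1) ^ (3 * cc)) * (Q.comp PN + Polynomial.C 1) ^ 2

theorem QS_eval (P Q : Polynomial ℕ) (m : ℕ) : (QS P Q).eval m = 2 * ((m + 1) *
    (4 * (PE P).eval m ^ 2 + 1) ^ (3 * cc)) * (Q.eval (PN.eval m) + 1) ^ 2 := by
  simp [QS, Polynomial.eval_comp]

theorem QS_pos (P Q : Polynomial ℕ) (m : ℕ) : 0 < (QS P Q).eval m := by
  rw [QS_eval]; positivity

/-- The length of the blocks of random bits. -/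
noncomputable def QR (P ρ : Polynomial ℕ) : Polynomial ℕ :=
  ρ.comp (QM P * (Polynomial.C 4 * PN + Polynomial.C 2) + Polynomial.C 1)

theorem QR_eval (P ρ : Polynomial ℕ) (m : ℕ) : (QR P ρ).eval m =
    ρ.eval ((QM P).eval m * (4 * PN.eval m + 2) + 1) := by
  simp [QR, Polynomial.eval_comp]

section

variable (V0 : List Bool → List Bool) (p P Q ρ : Polynomial ℕ) (g : List Bool → ℕ) (c0 : ℕ)

/-- The candidates for the number of the certificate. -/
noncomputable def VS (x : List Bool) (rows H : List (List Bool)) : List ℕ :=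
  listS (gS ρ g) (qz x rows (findF (rrP ((PE P).eval ((pm p c0).eval x.length)))) H)
    ((QM P).eval ((pm p c0).eval x.length)) (nnS ((PE P).eval ((pm p c0).eval x.length)))
    (rrP ((PE P).eval ((pm p c0).eval x.length)))
    (findF (rrP ((PE P).eval ((pm p c0).eval x.length)))) (p.eval x.length + 1)

/-- The search. -/
noncomputable def FF (x : List Bool) (rows H : List (List Bool)) : List Bool :=
  (((VS p P ρ g c0 x rows H).map fun v => uncd v.bits).filter fun w =>
    ver V0 p x w && rows.all fun a => !ip a (cd w)).head?.getD []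

/-- The blocks. -/
noncomputable def HH (x h : List Bool) : List (List Bool) :=
  rowsL ((QR P ρ).eval ((pm p c0).eval x.length)) ((QS P Q).eval ((pm p c0).eval x.length)) h

/-- The predictor of the inner products. -/
noncomputable def BB : Pred := fun z =>
  ip z.2.2.2.1 (cd (FF V0 p P ρ g c0 z.1 z.2.1 (HH p P Q ρ c0 z.1 z.2.2.1)))

/-- The number of random bits. -/
noncomputable def AA : Polynomial ℕ := (QS P Q * QR P ρ).comp (pm p c0)

theorem AA_eval (n : ℕ) : (AA p P Q ρ c0).eval n =
    (QS P Q).eval ((pm p c0).eval n) * (QR P ρ).eval ((pm p c0).eval n) := by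
  simp [AA, Polynomial.eval_comp]

variable {V0 p P Q ρ g c0}

theorem BB_poly (hV0 : PolyTime V0) (hg : NPC.Poly g) : NPC.Poly (BB V0 p P Q ρ g c0) := by
  have ex : NPC.Poly (fun z : List Bool × List (List Bool) × List Bool × List Bool × List Bool =>
      z.1) := NPC.Poly.fst NPC.Poly.id
  have er : NPC.Poly (fun z : List Bool × List (List Bool) × List Bool × List Bool × List Bool =>
      z.2.1) := NPC.Poly.fst (NPC.Poly.snd NPC.Poly.id)
  have eh : NPC.Poly (fun z : List Bool × List (List Bool) × List Bool × List Bool × List Bool =>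
      z.2.2.1) := NPC.Poly.fst (NPC.Poly.snd (NPC.Poly.snd NPC.Poly.id))
  have eu : NPC.Poly (fun z : List Bool × List (List Bool) × List Bool × List Bool × List Bool =>
      z.2.2.2.1) := NPC.Poly.fst (NPC.Poly.snd (NPC.Poly.snd (NPC.Poly.snd NPC.Poly.id)))
  have hm : UPoly (fun z : List Bool × List (List Bool) × List Bool × List Bool × List Bool =>
      (pm p c0).eval z.1.length) := (UPoly.length ex).eval (pm p c0)
  have hEU := hm.eval (PE P)
  have hMU := hm.eval (QM P)
  have hSU := hm.eval (QS P Q)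
  have hRU := hm.eval (QR P ρ)
  have eH : NPC.Poly (fun z : List Bool × List (List Bool) × List Bool × List Bool × List Bool =>
      HH p P Q ρ c0 z.1 z.2.2.1) := rowsL_poly hRU.toPoly hSU eh
  have hM2U : UPoly (fun z : List Bool × List (List Bool) × List Bool × List Bool × List Bool =>
      2 * ((PE P).eval ((pm p c0).eval z.1.length)) ^ 2) := by
    have := hEU.eval (Polynomial.C 2 * Polynomial.X ^ 2)
    simpa using this
  have hrU : UPoly (fun z : List Bool × List (List Bool) × List Bool × List Bool × List Bool =>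
      rrP ((PE P).eval ((pm p c0).eval z.1.length))) := upoly_size hM2U
  have hRB : RB (fun z : List Bool × List (List Bool) × List Bool × List Bool × List Bool =>
      rrP ((PE P).eval ((pm p c0).eval z.1.length))) := by
    refine ⟨hrU, UPoly.of_le (poly_pow2 hrU) (UPoly.add (UPoly.mul (UPoly.const 2) hM2U)
      (UPoly.const 1)) fun x => ?_⟩
    refine (rrP_spec (PE_pos _ _)).2.2.trans (le_of_eq ?_)
    ring
  have hNU : UPoly (fun z : List Bool × List (List Bool) × List Bool × List Bool × List Bool =>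
      nnS ((PE P).eval ((pm p c0).eval z.1.length))) := by
    unfold nnS
    exact hRB.pow 4
  have hFP := poly_findF hRB.hr hRB.h1
  have hVS : NPC.Poly (fun z : List Bool × List (List Bool) × List Bool × List Bool × List Bool =>
      VS p P ρ g c0 z.1 z.2.1 (HH p P Q ρ c0 z.1 z.2.2.1)) := by
    unfold VS
    refine poly_listS (polyTime_gS hg) (qb := fun z : List Bool × List (List Bool) × List Bool ×
      List Bool × List Bool => qz z.1 z.2.1 (findF (rrP ((PE P).eval ((pm p c0).eval
        z.1.length)))) (HH p P Q ρ c0 z.1 z.2.2.1)) ?_ hMU hNU (fun x => nnS_pos _) hRB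
        (((UPoly.length ex).eval p).add (UPoly.const 1)) hFP
    unfold qz qy
    have f0 : NPC.Poly (fun y : (List Bool × List (List Bool) × List Bool × List Bool × List Bool) ×
        ℕ × ℕ × ℕ × ℕ => y.1) := NPC.Poly.fst NPC.Poly.id
    have f1 := ex.comp f0
    have f2 := er.comp f0
    have f3 := hFP.comp f0
    have f4 := eH.comp f0
    refine poly_bits (NPC.Poly.pair (poly_bits ?_) f4)
    exact NPC.Poly.pair f1 (NPC.Poly.pair f2 (NPC.Poly.pair (by fun_prop) (NPC.Poly.pair
      (by fun_prop) (NPC.Poly.pair f3 (NPC.Poly.pair (by fun_prop) (by fun_prop))))))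
  have hFF : NPC.Poly (fun z : List Bool × List (List Bool) × List Bool × List Bool × List Bool =>
      FF V0 p P ρ g c0 z.1 z.2.1 (HH p P Q ρ c0 z.1 z.2.2.1)) := by
    unfold FF
    refine NPC.Poly.head?_getD (NPC.Poly.filter (p := fun (z : List Bool × List (List Bool) ×
      List Bool × List Bool × List Bool) w => ver V0 p z.1 w && z.2.1.all fun a => !ip a (cd w))
      (NPC.Poly.map (F := fun (z : List Bool × List (List Bool) × List Bool × List Bool ×
        List Bool) (v : ℕ) => uncd v.bits) hVS ?_) ?_) _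
    · exact uncd_poly (NPC.Poly.natBits (NPC.Poly.snd NPC.Poly.id))
    · refine NPC.Poly.and ((ver_poly hV0 p).comp (NPC.Poly.pair (ex.comp (NPC.Poly.fst
        NPC.Poly.id)) (NPC.Poly.snd NPC.Poly.id))) ?_
      refine NPC.Poly.all (l := fun y : (List Bool × List (List Bool) × List Bool × List Bool ×
        List Bool) × List Bool => y.1.2.1) (p := fun y a => !ip a (cd y.2))
        (er.comp (NPC.Poly.fst NPC.Poly.id)) ?_
      exact NPC.Poly.not (ip_poly (NPC.Poly.snd NPC.Poly.id)
        (Pool.Agent.Helper70K1.NB.poly_cd (NPC.Poly.snd (NPC.Poly.fst NPC.Poly.id))))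
  exact ip_poly eu (Pool.Agent.Helper70K1.NB.poly_cd hFF)

end

end Pool.Agent.Helper49.LSR
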