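import Pool.Agent.Helper48.NB.Red
import Pool.Agent.Helper49.LSR.Defs
import Pool.Agent.Helper45.LS.Defs

/-!
# Selection from lists: languages in `BPP`, reductions, deterministic selectors
-/

set_option autoImplicit false

namespace Pool.Agent.Helper49.LSR

open Pool.Agent.NPC
open Pool.Agent.Helper6K1.BN (prob prob_mono prob_eq InBPP expect_BL_take poly_pairBits)
open Pool.Agent.Helper70K1.SP (poly_of_polyTime polyTime_of_typed poly_bits)
open Pool.Agent.H579R2.Spt (take_poly')
open Pool.Agent.Helper48.NB (prob_take length_le_sz_of_mem)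
open Pool.Agent.Helper45.LS (ListSelective Lone)

/-- The position: the first string if the machine gives the answer `c` for it, otherwise the
second string. -/
noncomputable def gE (c : Bool) (V : List Bool → List Bool) (ρ : Polynomial ℕ) (y : List Bool) : ℕ :=
  if decide (V (pairBits ((((unbits (List (List Bool)) (unpair y).1).getD []).head?).getD [])
      ((unpair y).2.take (ρ.eval ((((unbits (List (List Bool)) (unpair y).1).getD
        []).head?).getD []).length))) = [true]) = c then 0 else 1

theorem gE_poly (c : Bool) {V : List Bool → List Bool} (hV : PolyTime V) (ρ : Polynomial ℕ) :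
    NPC.Poly (gE c V ρ) := by
  unfold gE
  have h0 : NPC.Poly (fun y : List Bool => (unpair y).1) := NPC.Poly.fst poly_unpair
  have h0' : NPC.Poly (fun y : List Bool => (unpair y).2) := NPC.Poly.snd poly_unpair
  have h1 : NPC.Poly (fun y : List Bool => (unbits (List (List Bool)) (unpair y).1).getD []) :=
    NPC.Poly.optGetD (poly_unbits.comp h0) (NPC.Poly.const _)
  have h2 : NPC.Poly (fun y : List Bool =>
      (((unbits (List (List Bool)) (unpair y).1).getD []).head?).getD []) :=
    NPC.Poly.optGetD (NPC.Poly.head? h1) (NPC.Poly.const _)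
  have h3 : UPoly (fun y : List Bool => ρ.eval ((((unbits (List (List Bool)) (unpair y).1).getD
        []).head?).getD []).length) := (UPoly.length h2).eval ρ
  have h4 : NPC.Poly (fun y : List Bool =>
      decide (V (pairBits ((((unbits (List (List Bool)) (unpair y).1).getD []).head?).getD [])
      ((unpair y).2.take (ρ.eval ((((unbits (List (List Bool)) (unpair y).1).getD
        []).head?).getD []).length))) = [true])) :=
    NPC.Poly.decide_eq ((poly_of_polyTime hV).comp (poly_pairBits h2
      (take_poly' h0' h3.toPoly))) (NPC.Poly.const [true])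
  exact NPC.Poly.ite (NPC.Poly.decide_eq h4 (NPC.Poly.const c)) (NPC.Poly.const 0)
    (NPC.Poly.const 1)

open Classical in
theorem rselective_aux (c : Bool) {L K : Set (List Bool)} (h : InBPP L)
    (hK : ∀ x, x ∈ K ↔ decide (x ∈ L) = c) : RSelective K := by
  obtain ⟨V, ρ, hV, hL⟩ := h
  refine ⟨Polynomial.C 1, Polynomial.C 5, ρ, gE c V ρ, polyTime_of_typed (poly_bits (gE_poly c hV ρ)),
    fun n xs i _ hxs hi => ?_⟩
  rw [Polynomial.eval_C] at hxs ⊢
  match xs, hxs with
  | [x, y], _ =>
    have h1 : ρ.eval x.length ≤ ρ.eval (bits [x, y]).length :=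
      eval_mono ρ (length_le_sz_of_mem (by simp))
    have h2 := hL x
    rw [← prob_take h1] at h2
    have h3 : (1 : ℝ) - 1 / (([x, y].length : ℕ) : ℝ) + 1 / (((5 : ℕ) : ℝ) + 1) = 2 / 3 := by
      norm_num
    rw [h3]
    refine h2.trans (prob_mono fun r _ hr => ?_)
    have e : gE c V ρ (pairBits (bits [x, y]) r) = if x ∈ K then 0 else 1 := by
      simp only [gE, unpair_pairBits, unbits_bits, Option.getD_some, List.head?_cons]
      have e1 : decide (V (pairBits x (r.take (ρ.eval x.length))) = [true]) = decide (x ∈ L) := by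
        rw [decide_eq_decide]
        exact hr
      rw [e1]
      by_cases hx : x ∈ K
      · rw [if_pos hx, if_pos ((hK x).1 hx)]
      · rw [if_neg hx, if_neg fun h4 => hx ((hK x).2 h4)]
    rw [e]
    obtain ⟨hi1, hi2⟩ := hi
    have h4 := hi2 0 (by simp)
    simp only [List.getD_cons_zero] at h4
    simp only [List.length_cons, List.length_nil] at hi1 ⊢
    by_cases hx : x ∈ K
    · rw [if_pos hx]
      exact ⟨by norm_num, h4.1 hx⟩
    · rw [if_neg hx]
      refine ⟨by norm_num, fun h5 => hx (h4.2 ?_)⟩
      omega

theorem rselective_of_bpp {L : Set (List Bool)} (h : InBPP L) : RSelective L := by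
  classical
  exact rselective_aux true h fun x => by simp

theorem rselective_compl_of_bpp {L : Set (List Bool)} (h : InBPP L) : RSelective Lᶜ := by
  classical
  exact rselective_aux false h fun x => by simp

/-- a function whose code is computed in polynomial time, after a typed function -/
theorem poly_gN {g : List Bool → ℕ} (hg : PolyTime fun y => bits (g y)) {β : Type}
    [TEnc β] {Q : β → List Bool} (hQ : NPC.Poly Q) : NPC.Poly (fun x => g (Q x)) := by
  have h1 : NPC.Poly (fun x => bits (g (Q x))) := (poly_of_polyTime hg).comp hQ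
  have h2 : NPC.Poly (fun x => (unbits ℕ (bits (g (Q x)))).getD 0) :=
    NPC.Poly.optGetD (poly_unbits.comp h1) (NPC.Poly.const _)
  refine h2.congr fun x => ?_
  rw [unbits_bits]
  rfl

theorem RSelective.of_reduces {K L : Set (List Bool)} (hK : RSelective K)
    (h : Reduces L K) : RSelective L := by
  obtain ⟨P, Q, ρ, g, hg, hP⟩ := hK
  obtain ⟨φ, hφ, hφL⟩ := h
  have hφP := poly_of_polyTime hφ
  obtain ⟨q, hq⟩ := hφP.sz_le
  have hφlen : ∀ x, (φ x).length ≤ q.eval (4 * x.length + 1) := by
    intro x
    have h1 := length_lt_sz (φ x)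
    have h2 := hq x
    have h3 := eval_mono q (sz_listBool_le x)
    omega
  have hmap : NPC.Poly (fun l : List (List Bool) => l.map φ) :=
    NPC.Poly.map (F := fun _ y => φ y) NPC.Poly.id (hφP.comp (NPC.Poly.snd NPC.Poly.id))
  obtain ⟨pm, hpm⟩ := hmap.sz_le
  set g' : List Bool → ℕ := fun y =>
    g (pairBits (bits ((((unbits (List (List Bool)) (unpair y).1).getD []).map φ)))
      ((unpair y).2.take (ρ.eval (bits (((unbits (List (List Bool)) (unpair y).1).getD
        []).map φ)).length))) with hg'
  have hP' : NPC.Poly g' := by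
    have h0 : NPC.Poly (fun y : List Bool => (unpair y).1) := NPC.Poly.fst poly_unpair
    have h0' : NPC.Poly (fun y : List Bool => (unpair y).2) := NPC.Poly.snd poly_unpair
    have h1 : NPC.Poly (fun y : List Bool => (unbits (List (List Bool)) (unpair y).1).getD []) :=
      NPC.Poly.optGetD (poly_unbits.comp h0) (NPC.Poly.const _)
    have h2 : NPC.Poly (fun y : List Bool =>
        bits (((unbits (List (List Bool)) (unpair y).1).getD []).map φ)) :=
      poly_bits (hmap.comp h1)
    exact poly_gN hg (poly_pairBits h2 (take_poly' h0' ((UPoly.length h2).eval ρ).toPoly))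
  refine ⟨P.comp (q.comp (Polynomial.C 4 * Polynomial.X + Polynomial.C 1)),
    Q.comp (q.comp (Polynomial.C 4 * Polynomial.X + Polynomial.C 1)), ρ.comp pm, g',
    polyTime_of_typed (poly_bits hP'), fun n xs i hxs hlen hi => ?_⟩
  have h1 : ∀ R : Polynomial ℕ,
      (R.comp (q.comp (Polynomial.C 4 * Polynomial.X + Polynomial.C 1))).eval n =
      R.eval (q.eval (4 * n + 1)) := by
    intro R
    simp [Polynomial.eval_comp]
  rw [h1] at hlen ⊢
  have h2 := hP (q.eval (4 * n + 1)) (xs.map φ) i (by
    intro y hy
    obtain ⟨x, hx, rfl⟩ := List.mem_map.1 hy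
    have h5 := hxs x hx
    exact (hφlen x).trans (eval_mono q (by omega))) (by rw [List.length_map]; exact hlen) (by
    obtain ⟨hi1, hi2⟩ := hi
    refine ⟨by rw [List.length_map]; exact hi1, fun j hj => ?_⟩
    rw [List.length_map] at hj
    have h3 : (xs.map φ).getD j [] = φ (xs.getD j []) := by
      rw [List.getD_eq_getElem _ _ (by simpa using hj), List.getD_eq_getElem _ _ hj,
        List.getElem_map]
    rw [h3, ← hφL, hi2 j hj])
  have h3 : ρ.eval (bits (xs.map φ)).length ≤ (ρ.comp pm).eval (bits xs).length := by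
    rw [Polynomial.eval_comp]
    refine eval_mono ρ ?_
    rw [bits_length, bits_length]
    exact hpm xs
  rw [← prob_take h3, List.length_map] at h2
  refine h2.trans (prob_mono fun r _ hr => ?_)
  have e : g' (pairBits (bits xs) r) =
      g (pairBits (bits (xs.map φ)) (r.take (ρ.eval (bits (xs.map φ)).length))) := by
    simp only [hg', unpair_pairBits, unbits_bits, Option.getD_some]
  rw [e]
  exact hr

theorem reduces_compl {K L : Set (List Bool)} (h : Reduces L K) : Reduces Lᶜ Kᶜ := by
  obtain ⟨φ, hφ, h⟩ := h
  exact ⟨φ, hφ, fun x => not_congr (h x)⟩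

/-- Deterministic selectors. -/
theorem rselective_of_list {K : Set (List Bool)} (h : ListSelective K) : RSelective K := by
  obtain ⟨P, g, hg, hP⟩ := h
  refine ⟨P, P, 0, fun y => g (unpair y).1, polyTime_of_typed (poly_bits (poly_gN hg
    (NPC.Poly.fst poly_unpair))), fun n xs i hxs hlen hi => ?_⟩
  obtain ⟨h1, h2⟩ := hP n xs hxs (by omega)
  obtain ⟨hi1, hi2⟩ := hi
  have h3 : g (bits xs) ≠ i := by
    intro h4
    rw [h4] at h2
    refine h2 ⟨fun h5 => (hi2 i hi1).1 h5 rfl, fun j hj hji => (hi2 j hj).2 hji⟩
  have h4 : prob ((0 : Polynomial ℕ).eval (bits xs).length) (fun r =>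
      g (unpair (pairBits (bits xs) r)).1 < xs.length ∧ g (unpair (pairBits (bits xs) r)).1 ≠ i) =
      1 := by
    unfold prob
    have h5 : {r : List Bool | r.length = (0 : Polynomial ℕ).eval (bits xs).length ∧
        (g (unpair (pairBits (bits xs) r)).1 < xs.length ∧
          g (unpair (pairBits (bits xs) r)).1 ≠ i)} = {[]} := by
      ext r
      simp only [Polynomial.eval_zero, Set.mem_ofPred_eq, Set.mem_singleton_iff,
        List.length_eq_zero_iff, unpair_pairBits]
      exact ⟨fun h6 => h6.1, fun h6 => ⟨h6, h1, h3⟩⟩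
    rw [h5]
    simp
  rw [h4, hlen]
  push_cast
  linarith

end Pool.Agent.Helper49.LSR
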