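import Pool.Agent.Helper49.LSR.Algo

/-!
# The search is correct with high probability
-/

set_option autoImplicit false

namespace Pool.Agent.Helper49.LSR

open Finset BigOperators Pool.Agent.NPC
open Pool.Agent.Helper6K1.BN (prob prob_eq BLL mem_BLL BLL_nonempty expect_BLL_zero
  BL_nonempty expect_rows mm Unq Pred uncd uncd_poly foldr_cd expect_BL_zero sg InBPP InRP
  engine_BPP engine_RP)
open Pool.Agent.H579R2.Spt (BL mem_BL ip cd ip_poly ver ver_poly ver_iff rowsL rowsL_poly take_poly')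
open Pool.Agent.Helper70K1.SP hiding PN
open Pool.Agent.Helper70K1.PP (PN PE PN_eval PE_eval PE_pos findF findF_spec rrP rrP_spec cc RB
  poly_findF)
open Pool.Agent.Helper70K1.NB (dq dq_bits poly_dq poly_pairBits' pm pm_eval qy qz QN uncd_cd
  head_of_unique bits_valB_cd sz_qy)
open Pool.Agent.Helper45.LS (listS poly_listS nnS nnS_pos nnS_eq keyN mem_listS param_okS le_nnS)

theorem le_PE (P : Polynomial ℕ) (m : ℕ) : m ≤ (PE P).eval m := by
  have h1 : m ≤ PN.eval m := by
    rw [PN_eval]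
    nlinarith
  rw [PE_eval]
  omega

theorem num_bound {T m M a S k : ℕ} (hT : T ≤ (m + 1) * (4 * M ^ 2 + 1) ^ k)
    (hS : S = 2 * ((m + 1) * (4 * M ^ 2 + 1) ^ k) * (a + 1) ^ 2) :
    (T : ℝ) * (((a : ℝ) + 1) ^ 2 / (S : ℝ)) ≤ 1 / 2 := by
  set K := (m + 1) * (4 * M ^ 2 + 1) ^ k with hK
  have hK0 : 0 < K := Nat.mul_pos (Nat.succ_pos _) (Nat.pow_pos (Nat.succ_pos _))
  have hKR : (0 : ℝ) < K := by exact_mod_cast hK0
  have hSe : (S : ℝ) = 2 * K * ((a : ℝ) + 1) ^ 2 := by
    rw [hS]
    push_cast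
    ring
  have hTR : (T : ℝ) ≤ K := by exact_mod_cast hT
  have ha0 : (0 : ℝ) < (a : ℝ) + 1 := by positivity
  have e4 : ((a : ℝ) + 1) ^ 2 / (2 * K * ((a : ℝ) + 1) ^ 2) = 1 / (2 * K) := by
    field_simp
  rw [hSe, e4, mul_one_div, div_le_div_iff₀ (by positivity) (by norm_num)]
  linarith

theorem getD_map_range {M j : ℕ} (F : ℕ → List Bool) (hj : j < M) :
    ((List.range M).map F).getD j [] = F j := by
  rw [List.getD_eq_getElem _ _ (by simpa using hj)]
  simp

section

variable {σ : Bool} {V0 : List Bool → List Bool} {p P Q ρ : Polynomial ℕ} {g : List Bool → ℕ}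
  {c0 : ℕ}

/-- The sample is good for the list of queries with the parameters `j`, `q`, `t`. -/
def GJ (P Q ρ : Polynomial ℕ) (g : List Bool → ℕ) (m : ℕ) (x w : List Bool)
    (rows H : List (List Bool)) (j q t : ℕ) : Prop :=
  GoodS ρ g (keyN (rrP ((PE P).eval m)) (findF (rrP ((PE P).eval m))) t
    (valB (cd w) % 2 ^ j % q)) ((QS P Q).eval m) H
      ((List.range ((QM P).eval m)).map (qy x rows (findF (rrP ((PE P).eval m))) j q t))

/-- The search is correct if all the samples are good. -/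
theorem FF_eq {x w : List Bool} {rows H : List (List Bool)} {m : ℕ}
    (hm : m = (pm p c0).eval x.length) (hH : H.length = (QS P Q).eval m)
    (hu : Unq V0 p x rows w)
    (hg : ∀ j ≤ p.eval x.length + 1, ∀ q < 2 ^ (rrP ((PE P).eval m) * cc),
      ∀ t < 2 ^ (rrP ((PE P).eval m) * (2 * cc)), GJ P Q ρ g m x w rows H j q t) :
    FF V0 p P ρ g c0 x rows H = w := by
  obtain ⟨hw, hr, huniq⟩ := hu
  set E := (PE P).eval m with hE
  set M := (QM P).eval m with hM
  have hE0 : 0 < E := PE_pos _ _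
  have hM0 : 0 < M := QM_pos _ _
  obtain ⟨hr0, hr1, hr2⟩ := rrP_spec hE0
  obtain ⟨hfl, hz⟩ := findF_spec hr0
  set f := findF (rrP E) with hf
  set V := valB (cd w) with hV
  have hwl : w.length ≤ p.eval x.length := (ver_iff.1 hw).1
  have hVlt : V < 2 ^ (p.eval x.length + 1) := by
    refine lt_of_lt_of_le (valB_lt (cd w)) (Nat.pow_le_pow_right (by norm_num) ?_)
    simp only [cd, List.length_append, List.length_singleton]
    omega
  have hmm : p.eval x.length + 1 ≤ E := by
    have h1 : p.eval x.length + 1 ≤ m := by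
      rw [hm, pm_eval]
      omega
    exact h1.trans (le_PE P m)
  have hxs : ∀ j q t, ((List.range M).map (qz x rows f H j q t)) =
      (List.range M).map fun i => bits ((qy x rows f j q t i, H) : List Bool × List (List Bool)) :=
    fun j q t => rfl
  have hM4 : M ≤ 4 ^ rrP E := by
    have h1 : M ≤ E := QM_le P m
    have h2 : E ≤ E ^ 2 := Nat.le_self_pow (by norm_num) _
    have h3 : 2 ^ rrP E ≤ 4 ^ rrP E := Nat.pow_le_pow_left (by norm_num) _
    omega
  have key := mem_listS (g := gS ρ g) (qb := qz x rows f H) (M := M) (N := nnS E) (r := rrP E)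
    (f := f) (V := V) (μ := p.eval x.length + 1)
    hr0 hfl hz (param_okS hE0 hmm) hM4 (le_nnS E) (nnS_pos E) ?_ (p.eval x.length + 1) le_rfl
  · rw [Nat.mod_eq_of_lt hVlt] at key
    have hVS : V ∈ VS p P ρ g c0 x rows H := by
      unfold VS
      rw [← hm]
      exact key
    unfold FF
    refine head_of_unique ?_ ?_
    · rw [List.mem_filter, List.mem_map]
      refine ⟨⟨V, hVS, ?_⟩, ?_⟩
      · rw [hV, bits_valB_cd, uncd_cd]
      · rw [hw, hr]; rfl
    · intro w' hw'
      rw [List.mem_filter, Bool.and_eq_true] at hw'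
      exact huniq w' hw'.2.1 hw'.2.2
  · intro j hj q hq t ht
    have h1 := hg j hj q hq t ht
    unfold GJ at h1
    rw [← hE, ← hM, ← hf, ← hV] at h1
    have h2 : gS ρ g (bits ((List.range M).map (qz x rows f H j q t))) =
        best ((List.range M).map (qy x rows f j q t)).length
          (outs ρ g H ((List.range M).map (qy x rows f j q t))) := by
      rw [hxs, gS_bits ρ g hM0]
    have h4 := goodS_spec hH (by simpa using hM0) h1
    rw [h2]
    refine ⟨?_, fun h5 => h4.2 h5.symm⟩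
    have h5 := h4.1
    simp only [List.length_map, List.length_range] at h5 ⊢
    exact h5

theorem GJ_prob (hpred : ∀ (n : ℕ) (xs : List (List Bool)) (i : ℕ), (∀ x ∈ xs, x.length ≤ n) →
      xs.length = P.eval n + 1 → OddOut (TS σ V0 p) xs i →
      1 - 1 / (xs.length : ℝ) + 1 / (((Q.eval n : ℕ) : ℝ) + 1) ≤
        prob (ρ.eval (bits xs).length) fun r =>
          g (pairBits (bits xs) r) < xs.length ∧ g (pairBits (bits xs) r) ≠ i)
    {x w : List Bool} {rows : List (List Bool)} {m j q t : ℕ}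
    (hu : Unq V0 p x rows w) (hc : 2 * (PE P).eval m ^ 2 < 2 ^ m)
    (hx : x.length ≤ m) (hrows : rows.length ≤ m) (hrow : ∀ u ∈ rows, u.length ≤ m)
    (hj : j ≤ m) (hq : q < 2 ^ (rrP ((PE P).eval m) * cc))
    (ht : t < 2 ^ (rrP ((PE P).eval m) * (2 * cc))) :
    𝔼 H ∈ BLL ((QR P ρ).eval m) ((QS P Q).eval m),
      (open Classical in if GJ P Q ρ g m x w rows H j q t then (0 : ℝ) else 1) ≤
      (((Q.eval (PN.eval m) : ℕ) : ℝ) + 1) ^ 2 / (((QS P Q).eval m : ℕ) : ℝ) := by
  obtain ⟨hw, hr, huniq⟩ := hu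
  set E := (PE P).eval m with hE
  set M := (QM P).eval m with hM
  have hE0 : 0 < E := PE_pos _ _
  have hM0 : 0 < M := QM_pos _ _
  obtain ⟨hr0, hr1, hr2⟩ := rrP_spec hE0
  obtain ⟨hfl, _⟩ := findF_spec hr0
  set f := findF (rrP E) with hf
  have hrm : rrP E ≤ m := Nat.size_le.2 hc
  set xs := (List.range M).map (qy x rows f j q t) with hxs
  set i0 := keyN (rrP E) f t (valB (cd w) % 2 ^ j % q) with hi0
  have hlen : ∀ y ∈ xs, y.length ≤ PN.eval m := by
    intro y hy
    obtain ⟨i, hi, rfl⟩ := List.mem_map.1 hy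
    rw [List.mem_range] at hi
    refine sz_qy hx hrows hrow hj hrm hq hfl ht ?_ rfl
    have h1 : M ≤ E := QM_le P m
    have h2 := Nat.le_self_pow (n := 2) (by norm_num) E
    omega
  have hxl : xs.length = M := by rw [hxs]; simp
  have hodd : i0 < xs.length → OddOut (TS σ V0 p) xs i0 := by
    intro hi
    refine ⟨hi, fun k hk => ?_⟩
    rw [hxl] at hk
    rw [hxs, getD_map_range _ hk]
    unfold qy
    rw [mem_TS σ hw hr huniq, hfl, ← hi0]
    exact ne_comm
  have h1 := goodS_prob (ρ := ρ) (g := g) (q := Q.eval (PN.eval m)) (S := (QS P Q).eval m)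
    (R := (QR P ρ).eval m) (i := i0) (xs := xs) (QS_pos P Q m) ?_ (fun hi =>
      hpred (PN.eval m) xs i0 hlen (by rw [hxl, hM, QM_eval]) (hodd hi))
  · refine le_trans (le_of_eq (expect_congr rfl fun H _ => ?_)) h1
    have e : GJ P Q ρ g m x w rows H j q t ↔ GoodS ρ g i0 ((QS P Q).eval m) H xs := Iff.rfl
    by_cases h2 : GoodS ρ g i0 ((QS P Q).eval m) H xs
    · rw [if_pos h2, if_pos (e.2 h2)]
    · rw [if_neg h2, if_neg fun h3 => h2 (e.1 h3)]
  · rw [QR_eval]
    refine eval_mono ρ ?_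
    rw [bits_length]
    refine (sz_le_length_mul xs (4 * PN.eval m + 1) fun y hy => ?_).trans ?_
    · have h1 := sz_listBool_le y
      have h2 := hlen y hy
      omega
    · rw [hxl]

open Classical in
/-- The predictor has an advantage. -/
theorem good (hpred : ∀ (n : ℕ) (xs : List (List Bool)) (i : ℕ), (∀ x ∈ xs, x.length ≤ n) →
      xs.length = P.eval n + 1 → OddOut (TS σ V0 p) xs i →
      1 - 1 / (xs.length : ℝ) + 1 / (((Q.eval n : ℕ) : ℝ) + 1) ≤
        prob (ρ.eval (bits xs).length) fun r =>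
          g (pairBits (bits xs) r) < xs.length ∧ g (pairBits (bits xs) r) ≠ i)
    (hc : ∀ m ≥ c0, 2 * (PE P).eval m ^ 2 < 2 ^ m) (hc1 : 1 ≤ c0) :
    Helper6K1.BN.Good V0 p (BB V0 p P Q ρ g c0) (AA p P Q ρ c0) (Polynomial.C 2) := by
  intro x rows w h1 h2 h3
  set m := (pm p c0).eval x.length with hm
  have hme : m = p.eval x.length + x.length + c0 + 1 := by rw [hm, pm_eval]
  set E := (PE P).eval m with hE
  have hE0 : 0 < E := PE_pos _ _
  obtain ⟨hr0, hr1, hr2⟩ := rrP_spec hE0
  set S := (QS P Q).eval m with hS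
  set R := (QR P ρ).eval m with hR
  have hmm : mm p x = p.eval x.length + 1 := rfl
  rw [hmm] at h1 h2
  -- the set of parameters
  set T := range (p.eval x.length + 2) ×ˢ (range (2 ^ (rrP E * cc)) ×ˢ
    range (2 ^ (rrP E * (2 * cc)))) with hT
  set AG : List (List Bool) → Prop := fun H => ∀ a ∈ T, GJ P Q ρ g m x w rows H a.1 a.2.1 a.2.2
    with hAG
  have hQ : (((Polynomial.C 2 : Polynomial ℕ).eval x.length : ℕ) : ℝ) = 2 := by simp
  rw [hQ]
  -- the union bound
  have hU : ∀ H, 1 - ∑ a ∈ T, (if GJ P Q ρ g m x w rows H a.1 a.2.1 a.2.2 then (0 : ℝ) else 1) ≤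
      if AG H then (1 : ℝ) else 0 := by
    intro H
    by_cases h : AG H
    · rw [if_pos h]
      have : 0 ≤ ∑ a ∈ T, (if GJ P Q ρ g m x w rows H a.1 a.2.1 a.2.2 then (0 : ℝ) else 1) :=
        sum_nonneg fun a _ => by split_ifs <;> norm_num
      linarith
    · rw [if_neg h]
      rw [hAG] at h
      simp only [not_forall] at h
      obtain ⟨a, ha, hna⟩ := h
      have h5 : (if GJ P Q ρ g m x w rows H a.1 a.2.1 a.2.2 then (0 : ℝ) else 1) ≤
          ∑ a ∈ T, (if GJ P Q ρ g m x w rows H a.1 a.2.1 a.2.2 then (0 : ℝ) else 1) :=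
        single_le_sum (f := fun a : ℕ × ℕ × ℕ =>
          (if GJ P Q ρ g m x w rows H a.1 a.2.1 a.2.2 then (0 : ℝ) else 1))
          (fun a _ => by split_ifs <;> norm_num) ha
      rw [if_neg hna] at h5
      linarith
  have hB : ∀ a ∈ T, 𝔼 H ∈ BLL R S,
      (if GJ P Q ρ g m x w rows H a.1 a.2.1 a.2.2 then (0 : ℝ) else 1) ≤
      (((Q.eval (PN.eval m) : ℕ) : ℝ) + 1) ^ 2 / (S : ℝ) := by
    rintro ⟨j, q, t⟩ ha
    rw [hT, mem_product, mem_product, mem_range, mem_range, mem_range] at ha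
    obtain ⟨ha1, ha2, ha3⟩ := ha
    refine GJ_prob hpred h3 (hc m (by omega)) (by omega) (by omega) (fun u hu => ?_) ?_ ha2 ha3
    · rw [h2 u hu]; omega
    · simp only at ha1
      omega
  have hcard : T.card ≤ (m + 1) * (4 * E ^ 2 + 1) ^ (3 * cc) := by
    rw [hT, card_product, card_product, card_range, card_range, card_range]
    refine Nat.mul_le_mul (by omega) ?_
    have e1 : 2 ^ (rrP E * cc) * 2 ^ (rrP E * (2 * cc)) = (2 ^ rrP E) ^ (3 * cc) := by
      rw [← pow_add, ← pow_mul]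
      congr 1
      ring
    rw [e1]
    exact Nat.pow_le_pow_left hr2 _
  have hfin : (1 : ℝ) / 2 ≤ 𝔼 H ∈ BLL R S, (if AG H then (1 : ℝ) else 0) := by
    have e1 : 𝔼 H ∈ BLL R S, (1 - ∑ a ∈ T,
        (if GJ P Q ρ g m x w rows H a.1 a.2.1 a.2.2 then (0 : ℝ) else 1)) ≤
        𝔼 H ∈ BLL R S, (if AG H then (1 : ℝ) else 0) := expect_le_expect fun H _ => hU H
    refine le_trans ?_ e1
    rw [expect_sub_distrib, expect_const (BLL_nonempty R S), expect_sum_comm]
    have e2 : ∑ a ∈ T, 𝔼 H ∈ BLL R S,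
        (if GJ P Q ρ g m x w rows H a.1 a.2.1 a.2.2 then (0 : ℝ) else 1) ≤
        T.card * ((((Q.eval (PN.eval m) : ℕ) : ℝ) + 1) ^ 2 / (S : ℝ)) := by
      refine (sum_le_card_nsmul T _ _ hB).trans (le_of_eq ?_)
      rw [nsmul_eq_mul]
    have e3 : (T.card : ℝ) * ((((Q.eval (PN.eval m) : ℕ) : ℝ) + 1) ^ 2 / (S : ℝ)) ≤
        1 / 2 := num_bound hcard (QS_eval P Q m)
    linarith
  -- from blocks to strings
  have hA : (AA p P Q ρ c0).eval x.length = S * R + 0 := by
    rw [AA_eval, ← hm, add_zero]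
  rw [hA]
  have hrows := expect_rows R S 0 (fun H _ => if AG H then (1 : ℝ) else 0)
  have e5 : ∀ H ∈ BLL R S, 𝔼 v ∈ BL 0, (if AG H then (1 : ℝ) else 0) =
      if AG H then (1 : ℝ) else 0 := fun H _ => expect_const (BL_nonempty 0) _
  rw [expect_congr rfl e5] at hrows
  rw [← hrows] at hfin
  refine hfin.trans (expect_le_expect fun h hh => ?_)
  by_cases hag : AG (rowsL R S h)
  · rw [if_pos hag, if_pos]
    have hFF : FF V0 p P ρ g c0 x rows (HH p P Q ρ c0 x h) = w := by
      refine FF_eq (m := m) (Q := Q) hm ?_ h3 ?_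
      · unfold HH
        rw [← hm, Helper6K1.BN.rowsL_length]
      · intro j hj q hq t ht
        have := hag (j, q, t) (by
          rw [hT, mem_product, mem_product, mem_range, mem_range, mem_range]
          exact ⟨by simp only; omega, hq, ht⟩)
        unfold HH
        rw [← hm]
        exact this
    have e6 : ∀ u ∈ BL (mm p x), 𝔼 d ∈ BL (S * R + 0),
        sg (BB V0 p P Q ρ g c0 (x, rows, h, u, d) ^^ ip u (cd w)) = 1 := by
      intro u _
      have e7 : ∀ d ∈ BL (S * R + 0),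
          sg (BB V0 p P Q ρ g c0 (x, rows, h, u, d) ^^ ip u (cd w)) = 1 := by
        intro d _
        unfold BB
        simp only
        rw [hFF, Bool.xor_self]
        rfl
      rw [expect_congr rfl e7, expect_const (BL_nonempty _)]
    rw [expect_congr rfl e6, expect_const (BL_nonempty _)]
    norm_num
  · rw [if_neg hag]
    split_ifs <;> norm_num

end

/-- The hard direction, for the queries `TS σ`. -/
theorem np_of_TS (σ : Bool) (h : ∀ (V0 : List Bool → List Bool) (p : Polynomial ℕ),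
    PolyTime V0 → RSelective (TS σ V0 p)) {L : Set (List Bool)} (hL : InNP L) :
    InBPP L ∧ InRP L := by
  obtain ⟨V0, p, hV0, hLV⟩ := hL
  have hL2 : ∀ x, x ∈ L ↔ ∃ w, ver V0 p x w = true := by
    intro x
    rw [hLV x]
    exact exists_congr fun w => ver_iff.symm
  obtain ⟨P, Q, ρ, g, hg, hpred⟩ := h V0 p hV0
  obtain ⟨c0, hc0⟩ := poly_lt_two_pow (Polynomial.C 2 * PE P ^ 2)
  have hB := BB_poly (V0 := V0) (p := p) (ρ := ρ) (P := P) (Q := Q) (c0 := c0 + 1) hV0 (poly_gT hg)
  have hgood := good (σ := σ) (c0 := c0 + 1) hpred (fun m hm => by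
    have := hc0 m (by omega)
    simpa using this) (by omega)
  exact ⟨engine_BPP hV0 hB hgood (fun n => by simp) hL2,
    engine_RP hV0 hB hgood (fun n => by simp) hL2⟩

/-- If all languages in `NP` are selective from lists by randomised algorithms, then
`NP ⊆ BPP` and `NP ⊆ RP`. -/
theorem np_of_all (h : ∀ L : Set (List Bool), InNP L → RSelective L) {L : Set (List Bool)}
    (hL : InNP L) : InBPP L ∧ InRP L :=
  np_of_TS false (fun _ p hV0 => h _ (WS_inNP false hV0 p)) hL

/-- If the complements of all languages in `NP` are selective from lists by randomised algorithms,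
then `NP ⊆ BPP` and `NP ⊆ RP`. -/
theorem np_of_all_compl (h : ∀ L : Set (List Bool), InNP L → RSelective Lᶜ)
    {L : Set (List Bool)} (hL : InNP L) : InBPP L ∧ InRP L :=
  np_of_TS true (fun _ p hV0 => h _ (WS_inNP true hV0 p)) hL

end Pool.Agent.Helper49.LSR
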