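import Pool.Agent.Helper70K1.NB.Good
import Pool.Agent.Helper45.LS.Prune

/-!
# The language of the hash values of the certificates
-/

set_option autoImplicit false

namespace Pool.Agent.Helper49.LSR

open Pool.Agent.NPC
open Pool.Agent.H579R2.Spt (ip cd ip_poly ver ver_poly ver_iff)
open Pool.Agent.Helper70K1.SP
open Pool.Agent.Helper70K1.PP (poly_hh cc)
open Pool.Agent.Helper70K1.NB (QN poly_cd)
open Pool.Agent.Helper45.LS (keyN)

/-- The statement about the hash value of the certificate `w` (`σ = true`: it has the number `i`;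
`σ = false`: it has another number). -/
def bS (σ : Bool) (Q : QN) (w : List Bool) : Bool :=
  decide (keyN Q.2.2.2.2.1.length Q.2.2.2.2.1 Q.2.2.2.2.2.1
    (valB (cd w) % 2 ^ min Q.2.2.1 (cd w).length % Q.2.2.2.1) = Q.2.2.2.2.2.2) == σ

/-- Some certificate that is orthogonal to the rows has a hash value as stated. -/
def WS (σ : Bool) (V0 : List Bool → List Bool) (p : Polynomial ℕ) (Q : QN) : Prop :=
  ∃ w, ver V0 p Q.1 w = true ∧ Q.2.1.all (fun a => !ip a (cd w)) = true ∧ bS σ Q w = true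

theorem poly_keyN {α : Type} [TEnc α] {r : α → ℕ} (hr : UPoly r) {f : α → List Bool}
    {t u : α → ℕ} (hf : NPC.Poly f) (ht : NPC.Poly t) (hu : NPC.Poly u) :
    NPC.Poly (fun a => keyN (r a) (f a) (t a) (u a)) := by
  unfold keyN
  exact NPC.Poly.valBits (NPC.Poly.append (poly_hh cc hr hf ht (NPC.Poly.const 0) hu)
    (poly_hh cc hr hf ht (NPC.Poly.const cc) hu))

theorem poly_bS (σ : Bool) : NPC.Poly (fun x : QN × List Bool => bS σ x.1 x.2) := by
  have h1 : NPC.Poly (fun x : QN × List Bool => cd x.2) := poly_cd (NPC.Poly.snd NPC.Poly.id)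
  have h2 : NPC.Poly (fun x : QN × List Bool => 2 ^ min x.1.2.2.1 (cd x.2).length) :=
    poly_pow2 (UPoly.of_le (n := fun x : QN × List Bool => (cd x.2).length) (by fun_prop)
      (UPoly.length h1) fun x => min_le_right _ _)
  have h3 : NPC.Poly (fun x : QN × List Bool =>
      valB (cd x.2) % 2 ^ min x.1.2.2.1 (cd x.2).length % x.1.2.2.2.1) := by
    have h4 := NPC.Poly.valBits h1
    fun_prop
  have hf : NPC.Poly (fun x : QN × List Bool => x.1.2.2.2.2.1) := by fun_prop
  have h5 : NPC.Poly (fun x : QN × List Bool => keyN x.1.2.2.2.2.1.length x.1.2.2.2.2.1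
      x.1.2.2.2.2.2.1 (valB (cd x.2) % 2 ^ min x.1.2.2.1 (cd x.2).length % x.1.2.2.2.1)) :=
    poly_keyN (UPoly.length hf) hf (by fun_prop) h3
  have h6 : NPC.Poly (fun x : QN × List Bool => decide (keyN x.1.2.2.2.2.1.length x.1.2.2.2.2.1
      x.1.2.2.2.2.2.1 (valB (cd x.2) % 2 ^ min x.1.2.2.1 (cd x.2).length % x.1.2.2.2.1) =
        x.1.2.2.2.2.2.2)) := NPC.Poly.decide_eq h5 (by fun_prop)
  unfold bS
  cases σ
  · refine (NPC.Poly.not h6).congr fun x => ?_
    cases decide (keyN x.1.2.2.2.2.1.length x.1.2.2.2.2.1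
      x.1.2.2.2.2.2.1 (valB (cd x.2) % 2 ^ min x.1.2.2.1 (cd x.2).length % x.1.2.2.2.1) =
        x.1.2.2.2.2.2.2) <;> rfl
  · refine h6.congr fun x => ?_
    cases decide (keyN x.1.2.2.2.2.1.length x.1.2.2.2.2.1
      x.1.2.2.2.2.2.1 (valB (cd x.2) % 2 ^ min x.1.2.2.1 (cd x.2).length % x.1.2.2.2.1) =
        x.1.2.2.2.2.2.2) <;> rfl

theorem WS_inNP (σ : Bool) {V0 : List Bool → List Bool} (hV0 : PolyTime V0) (p : Polynomial ℕ) :
    InNP (lang (WS σ V0 p)) := by
  have hR : NPC.Poly (fun q : QN × List Bool => (ver V0 p q.1.1 q.2 &&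
      q.1.2.1.all (fun a => !ip a (cd q.2))) && bS σ q.1 q.2) := by
    have e0 : NPC.Poly (fun q : QN × List Bool => q.1) := NPC.Poly.fst NPC.Poly.id
    have ew : NPC.Poly (fun q : QN × List Bool => q.2) := NPC.Poly.snd NPC.Poly.id
    have ecd := poly_cd ew
    have e1 : NPC.Poly (fun q : QN × List Bool => q.1.2) := NPC.Poly.snd e0
    refine NPC.Poly.and (NPC.Poly.and ((ver_poly hV0 p).comp (NPC.Poly.pair (NPC.Poly.fst e0) ew))
      (NPC.Poly.all (l := fun q : QN × List Bool => q.1.2.1)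
        (p := fun q a => !ip a (cd q.2)) (NPC.Poly.fst e1) ?_)) (poly_bS σ)
    exact NPC.Poly.not (ip_poly (NPC.Poly.snd NPC.Poly.id) (ecd.comp (NPC.Poly.fst NPC.Poly.id)))
  refine inNPP_of (α := QN) (β := List Bool)
    (R := fun q : QN × List Bool => (ver V0 p q.1.1 q.2 &&
      q.1.2.1.all (fun a => !ip a (cd q.2))) && bS σ q.1 q.2) hR (4 * p + 1) ?_
  intro Q
  constructor
  · rintro ⟨w, h1, h2, h3⟩
    refine ⟨w, ?_, ?_⟩
    · have h4 : w.length ≤ p.eval Q.1.length := (ver_iff.1 h1).1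
      have h5 := sz_listBool_le w
      have h6 : p.eval Q.1.length ≤ p.eval (sz Q) := by
        refine eval_mono p ?_
        have := length_lt_sz Q.1
        have h7 : sz Q = sz Q.1 + sz Q.2 + 1 := sz_pair Q.1 Q.2
        omega
      simp only [Polynomial.eval_add, Polynomial.eval_mul, Polynomial.eval_ofNat,
        Polynomial.eval_one]
      omega
    · simp only [h1, h2, h3, Bool.and_self]
  · rintro ⟨w, _, hw⟩
    simp only [Bool.and_eq_true] at hw
    exact ⟨w, hw.1.1, hw.1.2, hw.2⟩

/-- The hash value of a unique certificate. -/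
theorem mem_WS (σ : Bool) {V0 : List Bool → List Bool} {p : Polynomial ℕ} {x : List Bool}
    {rows : List (List Bool)} {w : List Bool} (hw : ver V0 p x w = true)
    (hr : rows.all (fun a => !ip a (cd w)) = true)
    (hu : ∀ w', ver V0 p x w' = true → rows.all (fun a => !ip a (cd w')) = true → w' = w)
    (j q : ℕ) (f : List Bool) (t i : ℕ) :
    bits ((x, rows, j, q, f, t, i) : QN) ∈ lang (WS σ V0 p) ↔
      (decide (keyN f.length f t (valB (cd w) % 2 ^ j % q) = i) == σ) = true := by
  have h0 : valB (cd w) % 2 ^ min j (cd w).length = valB (cd w) % 2 ^ j := by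
    have h1 := valB_lt (cd w)
    rcases le_total j (cd w).length with h2 | h2
    · rw [min_eq_left h2]
    · rw [min_eq_right h2, Nat.mod_eq_of_lt h1, Nat.mod_eq_of_lt (lt_of_lt_of_le h1
        (Nat.pow_le_pow_right (by norm_num) h2))]
  rw [bits_mem_lang]
  constructor
  · rintro ⟨w', h1, h2, h3⟩
    rw [hu w' h1 h2] at h3
    change (decide (keyN f.length f t (valB (cd w) % 2 ^ min j (cd w).length % q) = i) == σ) =
      true at h3
    rwa [h0] at h3
  · intro h
    refine ⟨w, hw, hr, ?_⟩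
    change (decide (keyN f.length f t (valB (cd w) % 2 ^ min j (cd w).length % q) = i) == σ) = true
    rwa [h0]

/-- The queries: the hash value does not have the number `i`. -/
def TS (σ : Bool) (V0 : List Bool → List Bool) (p : Polynomial ℕ) : Set (List Bool) :=
  if σ = true then (lang (WS true V0 p))ᶜ else lang (WS false V0 p)

theorem mem_TS (σ : Bool) {V0 : List Bool → List Bool} {p : Polynomial ℕ} {x : List Bool}
    {rows : List (List Bool)} {w : List Bool} (hw : ver V0 p x w = true)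
    (hr : rows.all (fun a => !ip a (cd w)) = true)
    (hu : ∀ w', ver V0 p x w' = true → rows.all (fun a => !ip a (cd w')) = true → w' = w)
    (j q : ℕ) (f : List Bool) (t i : ℕ) :
    bits ((x, rows, j, q, f, t, i) : QN) ∈ TS σ V0 p ↔
      keyN f.length f t (valB (cd w) % 2 ^ j % q) ≠ i := by
  unfold TS
  cases σ
  · rw [if_neg (by decide), mem_WS false hw hr hu]
    simp
  · rw [if_pos rfl, Set.mem_compl_iff, mem_WS true hw hr hu]
    simp

end Pool.Agent.Helper49.LSR
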